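import Mathlib
import Pool.Agent.Lib.MP_b37e0c_co.Defs
import Pool.Agent.Lib.MP_b37e0c_co.Sink

namespace Pool.Agent.Results.MP_b37e0c_co.NotSinkable

open Pool.Agent.Lib.MP_b37e0c_co

/-- Negative answer to Q1: a shortest-path triangulation of the unit sphere with fifty vertices,
all of whose edges are strictly shorter than `π / 2`, with neither pole on a vertex or an edge,
which is not sinkable. -/
theorem result : ∃ (G : SimpleGraph (Fin 50)) (p : Fin 50 → E3), IsTriangulation G p ∧
    (∀ u v, G.Adj u v → InnerProductGeometry.angle (p u) (p v) < Real.pi / 2) ∧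
    northPole ∉ drawing G p ∧ -northPole ∉ drawing G p ∧ ¬ Sinkable G p :=
  ⟨fan.graph, nrm P50, triang, angle_lt, north_not, south_not, not_sinkable⟩

end Pool.Agent.Results.MP_b37e0c_co.NotSinkable
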